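import Pool.Agent.Q328.AC.Excl

/-!
# Weak algorithms for a decidable family of finite sets

`p (a, x)` says that `x` is an object with the parameter `a`; for every `a` there are finitely many.
-/

set_option autoImplicit false

namespace Pool.Agent.Q328.AC

open Pool.Agent.Q49.EF

variable {α : Type} [Primcodable α]

lemma cnt_le_ncard {p : α × ℕ → Bool} {a : α} (hfin : {x | p (a, x) = true}.Finite) (t : ℕ) :
    cnt p a t ≤ {x | p (a, x) = true}.ncard := by
  rw [cnt_eq, ← Set.ncard_coe_finset]
  refine Set.ncard_le_ncard ?_ hfin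
  intro y hy
  simp only [Finset.coe_filter, Finset.mem_range, Set.mem_ofPred_eq] at hy ⊢
  exact hy.2

lemma exists_cnt_eq {p : α × ℕ → Bool} {a : α} (hfin : {x | p (a, x) = true}.Finite) :
    ∃ T, ∀ t, T ≤ t → cnt p a t = {x | p (a, x) = true}.ncard := by
  obtain ⟨N, hN⟩ := hfin.bddAbove
  refine ⟨N + 1, fun t ht => ?_⟩
  rw [cnt_eq, ← Set.ncard_coe_finset]
  congr 1
  ext x
  simp only [Finset.coe_filter, Finset.mem_range, Set.mem_ofPred_eq]
  exact ⟨fun h4 => h4.2, fun h4 => ⟨lt_of_lt_of_le (Nat.lt_succ_of_le (hN h4)) ht, h4⟩⟩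

lemma lt_of_cnt_eq {p : α × ℕ → Bool} {a : α} (hfin : {x | p (a, x) = true}.Finite) {t : ℕ}
    (h : cnt p a t = {x | p (a, x) = true}.ncard) {x : ℕ} (hx : p (a, x) = true) : x < t := by
  rw [cnt_eq, ← Set.ncard_coe_finset] at h
  have h5 : (((Finset.range t).filter fun x => p (a, x) = true : Finset ℕ) : Set ℕ)
      = {x | p (a, x) = true} := by
    refine Set.eq_of_subset_of_ncard_le ?_ h.ge hfin
    intro y hy
    simp only [Finset.coe_filter, Finset.mem_range, Set.mem_ofPred_eq] at hy ⊢
    exact hy.2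
  have h6 : x ∈ (((Finset.range t).filter fun x => p (a, x) = true : Finset ℕ) : Set ℕ) := by
    rw [h5]; exact hx
  simp only [Finset.coe_filter, Finset.mem_range, Set.mem_ofPred_eq] at h6
  exact h6.1

/-- from the decision problem to the bound -/
theorem bound_of_more {p : α × ℕ → Bool} (hp : Computable p)
    (hfin : ∀ a, {x | p (a, x) = true}.Finite)
    (h : ComputablePred fun z : α × ℕ => z.2 < {x | p (z.1, x) = true}.ncard) :
    ∃ B : α → ℕ, Computable B ∧ ∀ a x, p (a, x) = true → x < B a := by
  obtain ⟨q, hq, hq'⟩ := ComputablePred.computable_iff.mp h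
  have hqi : ∀ a m, q (a, m) = true ↔ m < {x | p (a, x) = true}.ncard := fun a m =>
    (iff_of_eq (congrFun hq' (a, m))).symm
  have h1 : Computable fun z : α × ℕ => !(q (z.1, cnt p z.1 z.2)) :=
    Primrec.not.to_comp.comp (hq.comp (Computable.pair Computable.fst (cnt_computable hp)))
  obtain ⟨B, h2, h3⟩ := search h1 fun a => by
    obtain ⟨T, hT⟩ := exists_cnt_eq (hfin a)
    refine ⟨T, ?_⟩
    rw [Bool.not_eq_true', ← Bool.not_eq_true, hqi, hT T le_rfl]
    exact lt_irrefl _
  refine ⟨B, h2, fun a x hx => ?_⟩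
  have h4 := h3 a
  rw [Bool.not_eq_true', ← Bool.not_eq_true, hqi] at h4
  exact lt_of_cnt_eq (hfin a) (le_antisymm (cnt_le_ncard (hfin a) _) (not_lt.mp h4)) hx

/-- from the bound to the decision problem -/
theorem more_of_bound {p : α × ℕ → Bool} (hp : Computable p) {B : α → ℕ} (hB : Computable B)
    (h : ∀ a x, p (a, x) = true → x < B a) :
    ComputablePred fun z : α × ℕ => z.2 < {x | p (z.1, x) = true}.ncard := by
  obtain ⟨n, h1, h2⟩ := card_of_bound hp hB h
  have h3 : Computable fun z : α × ℕ => decide (z.2 < n z.1) := by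
    have : Primrec fun z : ℕ × ℕ => decide (z.1 < z.2) :=
      (Primrec.nat_lt.decide : Primrec fun z : ℕ × ℕ => decide (z.1 < z.2))
    exact this.to_comp.comp (Computable.pair Computable.snd (h1.comp Computable.fst))
  refine ComputablePred.computable_iff.mpr ⟨_, h3, ?_⟩
  ext z
  rw [h2]
  simp

/-- the decision problem is recursively enumerable -/
lemma more_iff {p : α × ℕ → Bool} {a : α} (hfin : {x | p (a, x) = true}.Finite) (m : ℕ) :
    m < {x | p (a, x) = true}.ncard ↔ ∃ t, m < cnt p a t := by
  constructor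
  · intro h
    obtain ⟨T, hT⟩ := exists_cnt_eq hfin
    exact ⟨T, by rw [hT T le_rfl]; exact h⟩
  · rintro ⟨t, ht⟩
    exact lt_of_lt_of_le ht (cnt_le_ncard hfin t)

/-- an algorithm which excludes one possible number of elements of `A` among any `n` different ones -/
def Excludes {β : Type} [Primcodable β] (A : β → Prop) : Prop :=
  ∃ n : ℕ, 1 ≤ n ∧ ∃ e : List β → ℕ, Computable e ∧ ∀ l : List β, l.Nodup → l.length = n →
    e l ≤ n ∧ e l ≠ num A l

/-- an algorithm which gives more than half of the answers right for any `n` different questions -/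
def Frequent {β : Type} [Primcodable β] (A : β → Prop) : Prop :=
  ∃ n : ℕ, 1 ≤ n ∧ ∃ F : List β × ℕ → Bool, Computable F ∧ ∀ l : List β, l.Nodup →
    l.length = n → n < 2 * {i | ∃ h : i < l.length, (F (l, i) = true ↔ A l[i])}.ncard

theorem excludes_of_frequent {β : Type} [Primcodable β] {A : β → Prop} (h : Frequent A) :
    Excludes A := by
  obtain ⟨n, hn, F, hF, h⟩ := h
  have h1 : Computable fun l : List β => decide (n ≤ 2 * cnt F l n) := by
    have : Primrec fun m : ℕ => decide (n ≤ 2 * m) :=
      Primrec.nat_le.decide.comp (Primrec.const n) (Primrec.nat_mul.comp (Primrec.const 2) Primrec.id)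
    exact this.to_comp.comp (cnt_comp hF (Computable.const n))
  refine ⟨n, hn, fun l => cond (decide (n ≤ 2 * cnt F l n)) 0 n,
    Computable.cond h1 (Computable.const 0) (Computable.const n), fun l hl hl' => ?_⟩
  have h2 := h l hl hl'
  have key : ∀ b : Bool, (∀ i (hi : i < l.length), (F (l, i) = true ↔ A l[i]) ↔ F (l, i) = b) →
      {i | ∃ h : i < l.length, (F (l, i) = true ↔ A l[i])}.ncard =
        ((Finset.range n).filter fun i => F (l, i) = b).card := by
    intro b hb
    rw [← Set.ncard_coe_finset]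
    congr 1
    ext i
    simp only [Finset.coe_filter, Finset.mem_range, Set.mem_ofPred_eq]
    constructor
    · rintro ⟨hi, h3⟩
      exact ⟨hl' ▸ hi, (hb i hi).mp h3⟩
    · rintro ⟨hi, h3⟩
      exact ⟨hl'.symm ▸ hi, (hb i (hl'.symm ▸ hi)).mpr h3⟩
  have hsum : ((Finset.range n).filter fun i => F (l, i) = true).card +
      ((Finset.range n).filter fun i => F (l, i) = false).card = n := by
    have := Finset.card_filter_add_card_filter_not (s := Finset.range n) (fun i => F (l, i) = true)
    simp only [Bool.not_eq_true, Finset.card_range] at this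
    exact this
  rcases Nat.lt_or_ge (2 * cnt F l n) n with h3 | h3
  · have h4 : decide (n ≤ 2 * cnt F l n) = false := by simpa using h3
    beta_reduce
    rw [h4, cond_false]
    refine ⟨le_rfl, fun h5 => ?_⟩
    have h6 : ∀ x ∈ l, A x := num_eq_length.mp (by rw [← h5, hl'])
    rw [key true (fun i hi => by simp [h6 _ (List.getElem_mem hi)])] at h2
    rw [cnt_eq] at h3
    omega
  · have h4 : decide (n ≤ 2 * cnt F l n) = true := by simpa using h3
    beta_reduce
    rw [h4, cond_true]
    refine ⟨Nat.zero_le _, fun h5 => ?_⟩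
    have h6 : ∀ x ∈ l, ¬ A x := num_eq_zero.mp h5.symm
    rw [key false (fun i hi => by simp [h6 _ (List.getElem_mem hi)])] at h2
    rw [cnt_eq] at h3
    omega

theorem frequent_of_computable {β : Type} [Primcodable β] [Inhabited β] {A : β → Prop}
    (h : ComputablePred A) : Frequent A := by
  obtain ⟨q, hq, hq'⟩ := ComputablePred.computable_iff.mp h
  have hqi : ∀ a, q a = true ↔ A a := fun a => (iff_of_eq (congrFun hq' a)).symm
  refine ⟨1, le_rfl, fun z => q ((z.1[z.2]?).getD default),
    hq.comp (Computable.option_getD (Computable.list_getElem?.comp Computable.fst Computable.snd)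
      (Computable.const default)), fun l hl hl' => ?_⟩
  have : {i | ∃ h : i < l.length, (q ((l[i]?).getD default) = true ↔ A l[i])} = {0} := by
    ext i
    simp only [Set.mem_ofPred_eq, Set.mem_singleton_iff]
    constructor
    · rintro ⟨h1, -⟩
      omega
    · rintro rfl
      refine ⟨by omega, ?_⟩
      rw [List.getElem?_eq_getElem (by omega), Option.getD_some]
      exact hqi _
  change 1 < 2 * {i | ∃ h : i < l.length, (q ((l[i]?).getD default) = true ↔ A l[i])}.ncard
  rw [this]
  simp

/-- for recursively enumerable sets -/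
theorem computable_of_excludes {β : Type} [Primcodable β] {A : β → Prop} {dec : ℕ → β}
    {enc : β → ℕ} (hdec : Primrec dec) (henc : Computable enc) (h1 : ∀ b, dec (enc b) = b)
    (h2 : ∀ n, enc (dec n) = n) {p : β × ℕ → Bool} (hp : Computable p)
    (hA : ∀ x, A x ↔ ∃ t, p (x, t) = true) (h : Excludes A) : ComputablePred A := by
  obtain ⟨n, hn, e, he, h⟩ := h
  obtain ⟨n, rfl⟩ : ∃ m, n = m + 1 := ⟨n - 1, by omega⟩
  have h3 : ComputablePred fun x => A (dec x) := by
    have hp' : Computable fun z : ℕ × ℕ => p (dec z.1, z.2) :=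
      hp.comp (Computable.pair (hdec.to_comp.comp Computable.fst) Computable.snd)
    refine of_excl hp' (fun x => hA (dec x)) n ⟨fun l => e (l.map dec), ?_, fun l hl hl' => ?_⟩
    · exact he.comp (Primrec.list_map Primrec.id (hdec.comp Primrec.snd).to₂).to_comp
    · have h4 : Function.Injective dec := fun x y hxy => by rw [← h2 x, hxy, h2 y]
      have h5 := h (l.map dec) (hl.map h4) (by simpa using hl')
      refine ⟨h5.1, fun h6 => h5.2 (h6.trans ?_)⟩
      unfold num
      rw [List.countP_map]
      rfl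
  obtain ⟨q, hq, hq'⟩ := ComputablePred.computable_iff.mp h3
  refine ComputablePred.computable_iff.mpr ⟨fun b => q (enc b), hq.comp henc, ?_⟩
  ext b
  have := congrFun hq' (enc b)
  rw [h1] at this
  exact iff_of_eq this

/-- two large subsets meet -/
lemma inter_of_half {M : ℕ} {S T : ℕ → Prop} [DecidablePred S] [DecidablePred T]
    (h1 : M < 2 * ((Finset.range M).filter S).card) (h2 : M < 2 * ((Finset.range M).filter T).card) :
    ∃ i < M, S i ∧ T i := by
  by_contra h
  push Not at h
  have h3 : Disjoint ((Finset.range M).filter S) ((Finset.range M).filter T) := by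
    rw [Finset.disjoint_filter]
    intro i hi hS
    exact h i (Finset.mem_range.mp hi) hS
  have h4 := Finset.card_union_of_disjoint h3
  have h5 : ((Finset.range M).filter S ∪ (Finset.range M).filter T).card ≤ M := by
    refine (Finset.card_le_card ?_).trans (Finset.card_range M).le
    exact Finset.union_subset (Finset.filter_subset _ _) (Finset.filter_subset _ _)
  omega

open Classical in
/-- more than half of the harder parameters `b (a, i)`, `i < M a`, have the property `P` -/
def Half (M : α → ℕ) (b : α × ℕ → α) (P : α → Prop) : Prop :=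
  ∀ a, M a < 2 * ((Finset.range (M a)).filter fun i => P (b (a, i))).card

/-- from bounds for more than half of the harder parameters to all bounds -/
theorem bound_of_half {G : α → ℕ → Prop} {h : ℕ → ℝ} {M : α → ℕ} (hM : Computable M)
    {b : α × ℕ → α} (hb : Computable b) {c : α → ℕ} (hc : Computable c)
    (H : ∀ a, (∃ x, G a x) → ∃ i < M a, ∀ x, G (b (a, i)) x → h x ≤ c (b (a, i)))
    (up : ∀ a i x, G a x → i < M a → ∃ y, G (b (a, i)) y ∧ ∀ C : ℕ, h y ≤ C → h x ≤ C) :
    ∃ c' : α → ℕ, Computable c' ∧ ∀ a x, G a x → h x ≤ c' a := by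
  refine ⟨fun a => mx (fun z : α × ℕ => c (b z)) a (M a), mx_comp (hc.comp hb) hM, fun a x hx => ?_⟩
  obtain ⟨i, hi, h1⟩ := H a ⟨x, hx⟩
  obtain ⟨y, h2, h3⟩ := up a i x hx hi
  refine (h3 _ (h1 y h2)).trans ?_
  exact_mod_cast le_mx (fun z : α × ℕ => c (b z)) a hi

open Classical in
/-- from cardinalities for more than half of the harder parameters to all bounds -/
theorem bound_of_half_card {p : α × ℕ → Bool} (hp : Computable p)
    (hfin : ∀ a, {x | p (a, x) = true}.Finite) {h : ℕ → ℝ} {u : ℕ → ℕ} (hu : Computable u)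
    (hu' : ∀ a x, p (a, x) = true → h x ≤ u x) {M : α → ℕ} (hM : Computable M)
    {b : α × ℕ → α} (hb : Computable b) {n : α → ℕ} (hn : Computable n) {d : α → Bool}
    (hd : Computable d) (hd' : ∀ a x, p (a, x) = true → d a = true)
    {P : α → Prop} (hP : ∀ a, P a → {x | p (a, x) = true}.ncard = n a)
    (H : ∀ a, d a = true → M a < 2 * ((Finset.range (M a)).filter fun i => P (b (a, i))).card)
    (up : ∀ a i x, p (a, x) = true → i < M a →
      ∃ y, p (b (a, i), y) = true ∧ ∀ C : ℕ, h y ≤ C → h x ≤ C) :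
    ∃ c' : α → ℕ, Computable c' ∧ ∀ a x, p (a, x) = true → h x ≤ c' a := by
  -- the number of parameters for which the expected number of objects is reached
  have a1 : Computable fun w : (α × ℕ) × ℕ => b (w.1.1, w.2) :=
    hb.comp (Computable.pair (Computable.fst.comp Computable.fst) Computable.snd)
  have a2 : Computable fun w : (α × ℕ) × ℕ =>
      (cnt p (b (w.1.1, w.2)) w.1.2 == n (b (w.1.1, w.2))) :=
    Primrec.beq.to_comp.comp ((cnt_computable hp).comp (Computable.pair a1
      (Computable.snd.comp Computable.fst))) (hn.comp a1)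
  have a3 : Computable fun z : α × ℕ => cnt (fun w : (α × ℕ) × ℕ =>
      (cnt p (b (w.1.1, w.2)) w.1.2 == n (b (w.1.1, w.2)))) z (M z.1) :=
    cnt_comp a2 (hM.comp Computable.fst)
  have a4 : Computable fun z : α × ℕ => (!(d z.1) || decide (M z.1 < 2 * cnt (fun w : (α × ℕ) × ℕ =>
      (cnt p (b (w.1.1, w.2)) w.1.2 == n (b (w.1.1, w.2)))) z (M z.1))) := by
    have : Primrec fun z : ℕ × ℕ => decide (z.1 < 2 * z.2) :=
      Primrec.nat_lt.decide.comp Primrec.fst (Primrec.nat_mul.comp (Primrec.const 2) Primrec.snd)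
    exact Primrec.or.to_comp.comp (Primrec.not.to_comp.comp (hd.comp Computable.fst))
      (this.to_comp.comp (Computable.pair (hM.comp Computable.fst) a3))
  have a5 : ∀ a t, cnt (fun w : (α × ℕ) × ℕ =>
      (cnt p (b (w.1.1, w.2)) w.1.2 == n (b (w.1.1, w.2)))) (a, t) (M a) =
      ((Finset.range (M a)).filter fun i => cnt p (b (a, i)) t = n (b (a, i))).card := by
    intro a t
    rw [cnt_eq]
    congr 1
    refine Finset.filter_congr fun i _ => ?_
    simp
  obtain ⟨T, hT, hT'⟩ := search a4 fun a => by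
    by_cases hda : d a = true
    · choose S hS using fun i : ℕ => exists_cnt_eq (hfin (b (a, i)))
      refine ⟨(Finset.range (M a)).sup S, ?_⟩
      rw [Bool.or_eq_true, decide_eq_true_eq]
      refine Or.inr (lt_of_lt_of_le (H a hda) ?_)
      change _ ≤ 2 * cnt (fun w : (α × ℕ) × ℕ =>
        (cnt p (b (w.1.1, w.2)) w.1.2 == n (b (w.1.1, w.2)))) (a, _) (M a)
      rw [a5]
      refine Nat.mul_le_mul_left 2 (Finset.card_le_card ?_)
      intro i hi
      rw [Finset.mem_filter] at hi ⊢
      refine ⟨hi.1, ?_⟩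
      rw [hS i _ (Finset.le_sup hi.1)]
      exact hP _ hi.2
    · refine ⟨0, ?_⟩
      rw [Bool.not_eq_true] at hda
      simp [hda]
  refine ⟨fun a => mx (fun z : α × ℕ => u z.2) a (T a), mx_comp (hu.comp Computable.snd) hT,
    fun a x hx => ?_⟩
  have h1 := hT' a
  rw [Bool.or_eq_true, decide_eq_true_eq] at h1
  have hda := hd' a x hx
  have h2 : M a < 2 * cnt (fun w : (α × ℕ) × ℕ =>
      (cnt p (b (w.1.1, w.2)) w.1.2 == n (b (w.1.1, w.2)))) (a, T a) (M a) := by
    rcases h1 with h1 | h1
    · simp [hda] at h1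
    · exact h1
  rw [a5] at h2
  obtain ⟨i, hi, h3, h4⟩ := inter_of_half (H a hda) h2
  obtain ⟨y, h5, h6⟩ := up a i x hx hi
  have h7 : y < T a := lt_of_cnt_eq (hfin _) (h4.trans (hP _ h3).symm) h5
  refine (h6 _ (hu' _ y h5)).trans ?_
  exact_mod_cast le_mx (fun z : α × ℕ => u z.2) a h7

end Pool.Agent.Q328.AC
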