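import Pool.Agent.Q49.EF.Basic

/-!
# Recursively enumerable sets with weak algorithms are decidable

An algorithm which excludes for any `n` different numbers one possible value of the number of those in
a recursively enumerable set `A` decides `A` (the case of recursively enumerable sets of Kummer's
cardinality theorem, with a simple proof); so does an algorithm which answers any `n` different
questions such that more than half of the answers are right (Trakhtenbrot).
-/

set_option autoImplicit false

namespace Pool.Agent.Q328.AC

open Pool.Agent.Q49.EF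

/-- entry `i` of the list -/
def ent (z : List ℕ × ℕ) : ℕ := (z.1[z.2]?).getD 0

lemma ent_computable : Computable ent :=
  Computable.option_getD (Computable.list_getElem?.comp Computable.fst Computable.snd)
    (Computable.const 0)

lemma ent_eq (l : List ℕ) (i : ℕ) (h : i < l.length) : ent (l, i) = l[i] := by
  simp [ent, List.getElem?_eq_getElem h]

/-- membership -/
def mem (z : ℕ × List ℕ) : Bool :=
  ex (fun w : (ℕ × List ℕ) × ℕ => (ent (w.1.2, w.2) == w.1.1)) z z.2.length

lemma mem_computable : Computable mem := by
  have h1 : Computable fun w : (ℕ × List ℕ) × ℕ => (ent (w.1.2, w.2) == w.1.1) :=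
    Primrec.beq.to_comp.comp (ent_computable.comp
      (Computable.pair (Computable.snd.comp Computable.fst) Computable.snd))
      (Computable.fst.comp Computable.fst)
  exact ex_comp h1 (Computable.list_length.comp Computable.snd)

lemma mem_iff (x : ℕ) (l : List ℕ) : mem (x, l) = true ↔ x ∈ l := by
  unfold mem
  rw [ex_iff, List.mem_iff_getElem]
  constructor
  · rintro ⟨i, h1, h2⟩
    exact ⟨i, h1, by simpa [ent_eq l i h1] using h2⟩
  · rintro ⟨i, h1, h2⟩
    exact ⟨i, h1, by simpa [ent_eq l i h1] using h2⟩

/-- no repetitions -/
def nd (l : List ℕ) : Bool :=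
  !(ex (fun z : List ℕ × ℕ =>
    ex (fun w : (List ℕ × ℕ) × ℕ => (ent (w.1.1, w.2) == ent w.1)) z z.2) l l.length)

lemma nd_computable : Computable nd := by
  have h1 : Computable fun w : (List ℕ × ℕ) × ℕ => (ent (w.1.1, w.2) == ent w.1) :=
    Primrec.beq.to_comp.comp (ent_computable.comp
      (Computable.pair (Computable.fst.comp Computable.fst) Computable.snd))
      (ent_computable.comp Computable.fst)
  exact Primrec.not.to_comp.comp (ex_comp (ex_comp h1 Computable.snd) Computable.list_length)

lemma nd_iff (l : List ℕ) : nd l = true ↔ l.Nodup := by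
  unfold nd
  rw [Bool.not_eq_true', ← Bool.not_eq_true, ex_iff, List.Nodup, List.pairwise_iff_getElem]
  constructor
  · intro h i j hi hj hij h1
    refine h ⟨j, hj, ?_⟩
    rw [ex_iff]
    exact ⟨i, hij, by simp [ent_eq l i hi, ent_eq l j hj, h1]⟩
  · rintro h ⟨j, hj, h1⟩
    rw [ex_iff] at h1
    obtain ⟨i, hi, h2⟩ := h1
    have hi' : i < l.length := hi.trans hj
    refine h i j hi' hj hi ?_
    simpa [ent_eq l i hi', ent_eq l j hj] using h2

open Classical in
/-- the number of entries in `A` -/
noncomputable def num {α : Type} (A : α → Prop) (l : List α) : ℕ := l.countP fun x => decide (A x)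

lemma num_cons_of_pos {α : Type} {A : α → Prop} {a : α} (h : A a) (l : List α) :
    num A (a :: l) = num A l + 1 := by
  classical
  unfold num
  rw [List.countP_cons_of_pos]
  simpa using h

lemma num_cons_of_neg {α : Type} {A : α → Prop} {a : α} (h : ¬ A a) (l : List α) :
    num A (a :: l) = num A l := by
  classical
  unfold num
  rw [List.countP_cons_of_neg]
  simpa using h

lemma num_eq_zero {α : Type} {A : α → Prop} {l : List α} : num A l = 0 ↔ ∀ x ∈ l, ¬ A x := by
  classical
  unfold num
  rw [List.countP_eq_zero]
  simp

lemma num_eq_length {α : Type} {A : α → Prop} {l : List α} : num A l = l.length ↔ ∀ x ∈ l, A x := by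
  classical
  unfold num
  rw [List.countP_eq_length]
  simp

attribute [local irreducible] Nat.unpair Nat.pair

/-- **Excluding one value.** -/
theorem of_excl {p : ℕ × ℕ → Bool} (hp : Computable p) {A : ℕ → Prop}
    (hA : ∀ x, A x ↔ ∃ t, p (x, t) = true) (n : ℕ) :
    (∃ e : List ℕ → ℕ, Computable e ∧ ∀ l : List ℕ, l.Nodup → l.length = n + 1 →
      e l ≤ n + 1 ∧ e l ≠ num A l) → ComputablePred A := by
  induction n with
  | zero =>
    rintro ⟨e, he, h⟩
    have h1 : Computable fun x : ℕ => (e [x] == 0) :=
      Primrec.beq.to_comp.comp (he.comp (Computable.list_cons.comp Computable.id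
        (Computable.const []))) (Computable.const 0)
    refine ComputablePred.computable_iff.mpr ⟨_, h1, ?_⟩
    ext x
    obtain ⟨h2, h3⟩ := h [x] (List.nodup_singleton x) rfl
    have h4 : num A ([] : List ℕ) = 0 := num_eq_zero.mpr (by simp)
    by_cases hx : A x
    · rw [num_cons_of_pos hx, h4] at h3
      have : e [x] = 0 := by omega
      simp [hx, this]
    · rw [num_cons_of_neg hx, h4] at h3
      simp [hx, h3]
  | succ n ih =>
    rintro ⟨e, he, h⟩
    have hec : Computable fun z : ℕ × List ℕ => (e (z.1 :: z.2) == 0) :=
      Primrec.beq.to_comp.comp (he.comp (Computable.list_cons.comp Computable.fst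
        Computable.snd)) (Computable.const 0)
    by_cases H : ∃ l₀ : List ℕ, l₀.Nodup ∧ l₀.length = n + 1 ∧
        (∀ x ∈ l₀, ¬ A x) ∧ ∀ a, A a → e (a :: l₀) = 0
    · obtain ⟨l₀, h1, h2, h3, h4⟩ := H
      have h5 : Computable fun x : ℕ => (!(mem (x, l₀)) && (e (x :: l₀) == 0)) :=
        Primrec.and.to_comp.comp
          (Primrec.not.to_comp.comp (mem_computable.comp
            (Computable.pair Computable.id (Computable.const l₀))))
          (hec.comp (Computable.pair Computable.id (Computable.const l₀)))
      refine ComputablePred.computable_iff.mpr ⟨_, h5, ?_⟩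
      ext x
      by_cases hx : A x
      · have h6 : x ∉ l₀ := fun h => h3 x h hx
        have h7 : mem (x, l₀) = false := by
          rw [← Bool.not_eq_true, mem_iff]; exact h6
        simp [hx, h7, h4 x hx]
      · by_cases h6 : x ∈ l₀
        · simp [hx, (mem_iff x l₀).mpr h6]
        · obtain ⟨h7, h8⟩ := h (x :: l₀) (List.nodup_cons.mpr ⟨h6, h1⟩) (by simp [h2])
          rw [num_cons_of_neg hx, num_eq_zero.mpr h3] at h8
          simp [hx, h8]
    · have H' : ∀ l₀ : List ℕ, l₀.Nodup → l₀.length = n + 1 → (∀ x ∈ l₀, ¬ A x) →
          ∃ a, A a ∧ e (a :: l₀) ≠ 0 := by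
        intro l₀ h1 h2 h3
        by_contra h4
        refine H ⟨l₀, h1, h2, h3, fun a ha => ?_⟩
        by_contra h5
        exact h4 ⟨a, ha, h5⟩
      refine ih ?_
      -- the search
      have hv : Computable fun l : List ℕ => (nd l && (l.length == n + 1)) :=
        Primrec.and.to_comp.comp nd_computable
          (Primrec.beq.to_comp.comp Computable.list_length (Computable.const (n + 1)))
      have hC : Computable fun z : List ℕ × ℕ =>
          ex (fun w : (List ℕ × ℕ) × ℕ => p (ent (w.1.1, w.2), w.1.2)) z z.1.length :=
        ex_comp (hp.comp (Computable.pair (ent_computable.comp (Computable.pair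
          (Computable.fst.comp Computable.fst) Computable.snd))
          (Computable.snd.comp Computable.fst))) (Computable.list_length.comp Computable.fst)
      have hu : Computable fun z : List ℕ × ℕ => z.2.unpair := Computable.unpair.comp Computable.snd
      have hul : Computable fun z : List ℕ × ℕ => (z.2.unpair.1, z.1) :=
        Computable.pair (Computable.fst.comp hu) Computable.fst
      have hB : Computable fun z : List ℕ × ℕ =>
          (p z.2.unpair && (!(mem (z.2.unpair.1, z.1)) && !(e (z.2.unpair.1 :: z.1) == 0))) :=
        Primrec.and.to_comp.comp (hp.comp hu) (Primrec.and.to_comp.comp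
          (Primrec.not.to_comp.comp (mem_computable.comp hul))
          (Primrec.not.to_comp.comp (hec.comp hul)))
      have hg : Computable fun z : List ℕ × ℕ => (!(nd z.1 && (z.1.length == n + 1)) ||
          (ex (fun w : (List ℕ × ℕ) × ℕ => p (ent (w.1.1, w.2), w.1.2)) z z.1.length ||
          (p z.2.unpair && (!(mem (z.2.unpair.1, z.1)) && !(e (z.2.unpair.1 :: z.1) == 0))))) :=
        Primrec.or.to_comp.comp (Primrec.not.to_comp.comp (hv.comp Computable.fst))
          (Primrec.or.to_comp.comp hC hB)
      obtain ⟨f, hf, hf'⟩ := search hg (by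
        intro l
        by_cases hl : (nd l && (l.length == n + 1)) = true
        · simp only [Bool.and_eq_true, nd_iff, beq_iff_eq] at hl
          by_cases h1 : ∀ x ∈ l, ¬ A x
          · obtain ⟨a, ha', ha⟩ := H' l hl.1 hl.2 h1
            obtain ⟨t, ht⟩ := (hA a).mp ha'
            have h2 : a ∉ l := fun h => h1 a h ha'
            have h3 : mem (a, l) = false := by
              rw [← Bool.not_eq_true, mem_iff]; exact h2
            refine ⟨Nat.pair a t, ?_⟩
            simp [Nat.unpair_pair, ht, h3, ha]
          · push Not at h1
            obtain ⟨x, hx, hx'⟩ := h1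
            obtain ⟨t, ht⟩ := (hA x).mp hx'
            obtain ⟨i, hi, rfl⟩ := List.mem_iff_getElem.mp hx
            refine ⟨t, ?_⟩
            have h2 : ex (fun w : (List ℕ × ℕ) × ℕ => p (ent (w.1.1, w.2), w.1.2)) (l, t)
                l.length = true := by
              rw [ex_iff]
              exact ⟨i, hi, by simpa [ent_eq l i hi] using ht⟩
            simp [h2]
        · refine ⟨0, ?_⟩
          have h2 : (nd l && (l.length == n + 1)) = false := by
            rwa [Bool.not_eq_true] at hl
          simp only [h2]
          simp)
      have hz : Computable fun l : List ℕ => (l, f l) := Computable.pair Computable.id hf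
      refine ⟨fun l => cond (ex (fun w : (List ℕ × ℕ) × ℕ => p (ent (w.1.1, w.2), w.1.2))
        (l, f l) l.length) 0 (e ((f l).unpair.1 :: l) - 1), ?_, ?_⟩
      · refine Computable.cond (hC.comp hz) (Computable.const 0) ?_
        exact Primrec.nat_sub.to_comp.comp (he.comp (Computable.list_cons.comp
          (Computable.fst.comp (hu.comp hz)) Computable.id)) (Computable.const 1)
      · intro l h1 h2
        have h3 := hf' l
        have h4 : (nd l && (l.length == n + 1)) = true := by
          simp only [Bool.and_eq_true, nd_iff, beq_iff_eq]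
          exact ⟨h1, h2⟩
        simp only [h4, Bool.not_true, Bool.false_or] at h3
        beta_reduce
        generalize h5 : ex (fun w : (List ℕ × ℕ) × ℕ => p (ent (w.1.1, w.2), w.1.2)) (l, f l)
          l.length = b at h3 ⊢
        cases b with
        | true =>
          rw [cond_true]
          refine ⟨Nat.zero_le _, fun h6 => ?_⟩
          rw [ex_iff] at h5
          obtain ⟨i, hi, h7⟩ := h5
          simp only [ent_eq l i hi] at h7
          exact num_eq_zero.mp h6.symm _ (List.getElem_mem hi) ((hA _).mpr ⟨_, h7⟩)
        | false =>
          rw [cond_false]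
          simp only [Bool.false_or, Bool.and_eq_true, Bool.not_eq_true', beq_eq_false_iff_ne,
            ne_eq] at h3
          obtain ⟨h6, h7, h8⟩ := h3
          have h9 : (f l).unpair.1 ∉ l := by
            rw [← mem_iff, Bool.not_eq_true]; exact h7
          obtain ⟨h10, h11⟩ := h ((f l).unpair.1 :: l) (List.nodup_cons.mpr ⟨h9, h1⟩) (by simp [h2])
          have h12 : A (f l).unpair.1 := (hA _).mpr ⟨(f l).unpair.2, h6⟩
          rw [num_cons_of_pos h12] at h11
          omega

end Pool.Agent.Q328.AC
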