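import Pool.Agent.Q328.AC.Avg

/-!
# Properties of most pairs of numbers
-/

set_option autoImplicit false

namespace Pool.Agent.Q328.AC

open Pool.Agent.Q49.EF

/-- the number of pairs `(N, g)` with `1 ≤ N, g ≤ X` without the property `P` -/
noncomputable def bad (P : ℕ × ℕ → Prop) (X : ℕ) : ℕ :=
  {a : ℕ × ℕ | (1 ≤ a.1 ∧ a.1 ≤ X) ∧ (1 ≤ a.2 ∧ a.2 ≤ X) ∧ ¬ P a}.ncard

/-- `P` holds for all but at most `X ^ 2 / ψ X` of the pairs up to `X`, for all `X`, where `ψ` is a
computable function which has arbitrarily large values at arbitrarily large numbers -/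
def Most (P : ℕ × ℕ → Prop) : Prop :=
  ∃ ψ : ℕ → ℕ, Computable ψ ∧ (∀ m, ∃ X, m ≤ X ∧ m ≤ ψ X) ∧ ∀ X, ψ X * bad P X ≤ X ^ 2

lemma most_of_forall {P : ℕ × ℕ → Prop} (h : ∀ a, P a) : Most P := by
  refine ⟨id, Computable.id, fun m => ⟨m, le_rfl, le_rfl⟩, fun X => ?_⟩
  have : bad P X = 0 := by
    unfold bad
    have : {a : ℕ × ℕ | (1 ≤ a.1 ∧ a.1 ≤ X) ∧ (1 ≤ a.2 ∧ a.2 ≤ X) ∧ ¬ P a} = ∅ := by
      ext a
      simp [h a]
    rw [this, Set.ncard_empty]
  rw [this]
  simp

/-- a threshold -/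
def thr (a : ℕ × ℕ) : ℕ := 8 * (a.1 * a.2)

lemma thr_eq (N g : ℕ) : thr (N, g) = 8 * (N * g) := rfl

lemma thr_computable : Computable thr :=
  (Primrec.nat_mul.comp (Primrec.const 8) (Primrec.nat_mul.comp Primrec.fst Primrec.snd)).to_comp

/-- strict inequality -/
def lt' (z : ℕ × ℕ) : Bool := decide (z.1 < z.2)

/-- inequality -/
def le' (z : ℕ × ℕ) : Bool := decide (z.1 ≤ z.2)

lemma lt'_iff (a b : ℕ) : lt' (a, b) = true ↔ a < b := by simp [lt']

lemma lt'_computable : Computable lt' :=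
  (Primrec.nat_lt.decide.comp Primrec.fst Primrec.snd : Primrec fun z : ℕ × ℕ =>
    decide (z.1 < z.2)).to_comp

lemma le'_computable : Computable le' :=
  (Primrec.nat_le.decide.comp Primrec.fst Primrec.snd : Primrec fun z : ℕ × ℕ =>
    decide (z.1 ≤ z.2)).to_comp

/-- the condition for `X` -/
def ok (ψ : ℕ → ℕ) (z : (ℕ × ℕ) × ℕ) : Bool :=
  le' (z.1.1, z.2) && (le' (z.1.2, z.2) && lt' (thr z.1, ψ z.2))

lemma ok_of {ψ : ℕ → ℕ} {a : ℕ × ℕ} {X : ℕ} (h1 : a.1 ≤ X) (h2 : a.2 ≤ X) (h3 : thr a < ψ X) :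
    ok ψ (a, X) = true := by
  unfold ok le' lt'
  simp only [Bool.and_eq_true, decide_eq_true_eq]
  exact ⟨h1, h2, h3⟩

lemma of_ok {ψ : ℕ → ℕ} {a : ℕ × ℕ} {X : ℕ} (h : ok ψ (a, X) = true) :
    a.1 ≤ X ∧ a.2 ≤ X ∧ thr a < ψ X := by
  unfold ok le' lt' at h
  simp only [Bool.and_eq_true, decide_eq_true_eq] at h
  exact h

attribute [local irreducible] thr lt' le'

lemma ok_computable {ψ : ℕ → ℕ} (hψ : Computable ψ) : Computable (ok ψ) := by
  have e1 : Computable fun z : (ℕ × ℕ) × ℕ => (z.1.1, z.2) :=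
    Computable.pair (Computable.fst.comp Computable.fst) Computable.snd
  have e2 : Computable fun z : (ℕ × ℕ) × ℕ => (z.1.2, z.2) :=
    Computable.pair (Computable.snd.comp Computable.fst) Computable.snd
  have e3 : Computable fun z : (ℕ × ℕ) × ℕ => (thr z.1, ψ z.2) :=
    Computable.pair (thr_computable.comp Computable.fst) (hψ.comp Computable.snd)
  have f1 : Computable fun z : (ℕ × ℕ) × ℕ => le' (z.1.1, z.2) := le'_computable.comp e1
  have f2 : Computable fun z : (ℕ × ℕ) × ℕ => le' (z.1.2, z.2) := le'_computable.comp e2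
  have f3 : Computable fun z : (ℕ × ℕ) × ℕ => lt' (thr z.1, ψ z.2) := lt'_computable.comp e3
  exact Computable₂.comp (f := and) Primrec.and.to_comp f1
    (Computable₂.comp (f := and) Primrec.and.to_comp f2 f3)

open Classical in
/-- more than half of the pairs of multiples of `N` and `g` up to a computable bound have the property -/
theorem half_of_most {P : ℕ × ℕ → Prop} (h : Most P) : ∃ X : ℕ × ℕ → ℕ, Computable X ∧
    ∀ N g, 1 ≤ N → 1 ≤ g → (X (N, g) / N) * (X (N, g) / g) <
      2 * ((Finset.range ((X (N, g) / N) * (X (N, g) / g))).filter fun i =>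
        P (N * (i / (X (N, g) / g) + 1), g * (i % (X (N, g) / g) + 1))).card := by
  obtain ⟨ψ, hψ, h1, h2⟩ := h
  obtain ⟨X, hX, hX'⟩ := search (ok_computable hψ) fun a => by
    obtain ⟨X, h3, h4⟩ := h1 (thr a + a.1 + a.2 + 1)
    exact ⟨X, ok_of (by omega) (by omega) (by omega)⟩
  refine ⟨X, hX, fun N g hN hg => ?_⟩
  obtain ⟨h4, h5, h6⟩ := of_ok (hX' (N, g))
  rw [thr_eq] at h6
  generalize X (N, g) = Y at h4 h5 h6 ⊢
  have h7 := h2 Y
  set a := Y / N with ha
  set b := Y / g with hb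
  have ha1 : 1 ≤ a := (Nat.one_le_div_iff hN).mpr h4
  have hb1 : 1 ≤ b := (Nat.one_le_div_iff hg).mpr h5
  have ha2 : Y < N * (a + 1) := Nat.lt_mul_div_succ Y hN
  have hb2 : Y < g * (b + 1) := Nat.lt_mul_div_succ Y hg
  have ha3 : N * a ≤ Y := Nat.mul_div_le Y N
  have hb3 : g * b ≤ Y := Nat.mul_div_le Y g
  -- the wrong pairs
  have hW : ((Finset.range (a * b)).filter fun i =>
      ¬ P (N * (i / b + 1), g * (i % b + 1))).card ≤ bad P Y := by
    have e1 : bad P Y = ((Finset.Icc 1 Y ×ˢ Finset.Icc 1 Y).filter fun z => ¬ P z).card := by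
      unfold bad
      rw [← Set.ncard_coe_finset]
      congr 1
      ext z
      simp only [Set.mem_ofPred_eq, Finset.coe_filter, Finset.mem_product, Finset.mem_Icc]
      tauto
    rw [e1]
    refine Finset.card_le_card_of_injOn (fun i => (N * (i / b + 1), g * (i % b + 1))) ?_ ?_
    · intro i hi
      simp only [Finset.coe_filter, Finset.mem_range, Set.mem_ofPred_eq] at hi
      simp only [Finset.coe_filter, Finset.mem_product, Finset.mem_Icc, Set.mem_ofPred_eq]
      have h8 : i / b < a := (Nat.div_lt_iff_lt_mul hb1).mpr hi.1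
      have h9 : i % b < b := Nat.mod_lt _ hb1
      have h10 : N * (i / b + 1) ≤ N * a := Nat.mul_le_mul_left N h8
      have h11 : g * (i % b + 1) ≤ g * b := Nat.mul_le_mul_left g h9
      refine ⟨⟨⟨Nat.mul_pos hN (Nat.succ_pos _), h10.trans ha3⟩,
        ⟨Nat.mul_pos hg (Nat.succ_pos _), h11.trans hb3⟩⟩, hi.2⟩
    · intro i _ j _ hij
      simp only [Prod.mk.injEq] at hij
      have h8 : i / b = j / b := by
        have := Nat.eq_of_mul_eq_mul_left hN hij.1
        omega
      have h9 : i % b = j % b := by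
        have := Nat.eq_of_mul_eq_mul_left hg hij.2
        omega
      rw [← Nat.div_add_mod i b, ← Nat.div_add_mod j b, h8, h9]
  have hsum := Finset.card_filter_add_card_filter_not (s := Finset.range (a * b))
    (fun i => P (N * (i / b + 1), g * (i % b + 1)))
  rw [Finset.card_range] at hsum
  generalize ((Finset.range (a * b)).filter fun i =>
    ¬ P (N * (i / b + 1), g * (i % b + 1))).card = W at hW hsum
  have hab : 1 ≤ a * b := Nat.mul_pos ha1 hb1
  have key : 2 * W < a * b := by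
    rcases Nat.eq_zero_or_pos W with h8 | h8
    · omega
    · have h9 : 8 * (N * g) * W < Y ^ 2 :=
        lt_of_lt_of_le (Nat.mul_lt_mul_of_pos_right h6 h8)
          ((Nat.mul_le_mul_left _ hW).trans h7)
      have h10 : Y < 2 * (N * a) := by nlinarith
      have h11 : Y < 2 * (g * b) := by nlinarith
      have h12 : Y ^ 2 < (2 * (N * a)) * (2 * (g * b)) := by
        rw [pow_two]
        exact Nat.mul_lt_mul'' h10 h11
      have h13 : (4 * (N * g)) * (2 * W) < (4 * (N * g)) * (a * b) := by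
        calc (4 * (N * g)) * (2 * W) = 8 * (N * g) * W := by ring
          _ < Y ^ 2 := h9
          _ < (2 * (N * a)) * (2 * (g * b)) := h12
          _ = (4 * (N * g)) * (a * b) := by ring
      exact Nat.lt_of_mul_lt_mul_left h13
  omega

end Pool.Agent.Q328.AC
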