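import Pool.Agent.Q328.AC.Most

/-!
# Properties of most numbers, uniformly in a parameter
-/

set_option autoImplicit false

namespace Pool.Agent.Q328.AC

open Pool.Agent.Q49.EF

/-- the number of `N` with `1 ≤ N ≤ X` for which `(b, N)` does not have the property `P` -/
noncomputable def badN (P : (ℕ × ℕ) × ℕ → Prop) (b : ℕ × ℕ) (X : ℕ) : ℕ :=
  {N : ℕ | (1 ≤ N ∧ N ≤ X) ∧ ¬ P (b, N)}.ncard

/-- for every `b`, `P (b, N)` holds for all but at most `X / ψ (b, X)` of the numbers `N` up to `X`, for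
all `X`, where `ψ` is a computable function which has for each `b` arbitrarily large values at
arbitrarily large numbers -/
def MostN (P : (ℕ × ℕ) × ℕ → Prop) : Prop :=
  ∃ ψ : (ℕ × ℕ) × ℕ → ℕ, Computable ψ ∧ (∀ b m, ∃ X, m ≤ X ∧ m ≤ ψ (b, X)) ∧
    ∀ b X, ψ (b, X) * badN P b X ≤ X

lemma mostN_of_forall {P : (ℕ × ℕ) × ℕ → Prop} (h : ∀ a, P a) : MostN P := by
  refine ⟨fun z => z.2, Computable.snd, fun b m => ⟨m, le_rfl, le_rfl⟩, fun b X => ?_⟩
  have : badN P b X = 0 := by
    unfold badN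
    have : {N : ℕ | (1 ≤ N ∧ N ≤ X) ∧ ¬ P (b, N)} = ∅ := by
      ext a
      simp [h]
    rw [this, Set.ncard_empty]
  rw [this]
  simp

/-- a threshold -/
def thrN (N : ℕ) : ℕ := 4 * N

lemma thrN_eq (N : ℕ) : thrN N = 4 * N := rfl

lemma thrN_computable : Computable thrN :=
  (Primrec.nat_mul.comp (Primrec.const 4) Primrec.id).to_comp

/-- the condition for `X` -/
def okN (ψ : (ℕ × ℕ) × ℕ → ℕ) (z : ((ℕ × ℕ) × ℕ) × ℕ) : Bool :=
  le' (z.1.2, z.2) && lt' (thrN z.1.2, ψ (z.1.1, z.2))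

lemma okN_iff {ψ : (ℕ × ℕ) × ℕ → ℕ} {b : ℕ × ℕ} {N X : ℕ} :
    okN ψ ((b, N), X) = true ↔ N ≤ X ∧ thrN N < ψ (b, X) := by
  unfold okN le' lt'
  simp only [Bool.and_eq_true, decide_eq_true_eq]

attribute [local irreducible] thrN lt' le'

lemma okN_computable {ψ : (ℕ × ℕ) × ℕ → ℕ} (hψ : Computable ψ) : Computable (okN ψ) := by
  have e0 : Computable fun z : ((ℕ × ℕ) × ℕ) × ℕ => z.1.2 := Computable.snd.comp Computable.fst
  have e1 : Computable fun z : ((ℕ × ℕ) × ℕ) × ℕ => (z.1.2, z.2) := Computable.pair e0 Computable.snd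
  have e2 : Computable fun z : ((ℕ × ℕ) × ℕ) × ℕ => (z.1.1, z.2) :=
    Computable.pair (Computable.fst.comp Computable.fst) Computable.snd
  have e3 : Computable fun z : ((ℕ × ℕ) × ℕ) × ℕ => (thrN z.1.2, ψ (z.1.1, z.2)) :=
    Computable.pair (thrN_computable.comp e0) (hψ.comp e2)
  have f1 : Computable fun z : ((ℕ × ℕ) × ℕ) × ℕ => le' (z.1.2, z.2) := le'_computable.comp e1
  have f3 : Computable fun z : ((ℕ × ℕ) × ℕ) × ℕ => lt' (thrN z.1.2, ψ (z.1.1, z.2)) :=
    lt'_computable.comp e3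
  exact Computable₂.comp (f := and) Primrec.and.to_comp f1 f3

open Classical in
/-- more than half of the multiples of `N` up to a computable bound have the property -/
theorem half_of_mostN {P : (ℕ × ℕ) × ℕ → Prop} (h : MostN P) : ∃ X : (ℕ × ℕ) × ℕ → ℕ, Computable X ∧
    ∀ b N, 1 ≤ N → X (b, N) / N <
      2 * ((Finset.range (X (b, N) / N)).filter fun i => P (b, N * (i + 1))).card := by
  obtain ⟨ψ, hψ, h1, h2⟩ := h
  obtain ⟨X, hX, hX'⟩ := search (okN_computable hψ) fun a => by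
    obtain ⟨b, N⟩ := a
    obtain ⟨X, h3, h4⟩ := h1 b (thrN N + N + 1)
    exact ⟨X, okN_iff.mpr ⟨by omega, by omega⟩⟩
  refine ⟨X, hX, fun b N hN => ?_⟩
  obtain ⟨h4, h6⟩ := okN_iff.mp (hX' (b, N))
  rw [thrN_eq] at h6
  generalize X (b, N) = Y at h4 h6 ⊢
  have h7 := h2 b Y
  set a := Y / N with ha
  have ha1 : 1 ≤ a := (Nat.one_le_div_iff hN).mpr h4
  have ha2 : Y < N * (a + 1) := Nat.lt_mul_div_succ Y hN
  have ha3 : N * a ≤ Y := Nat.mul_div_le Y N
  have hW : ((Finset.range a).filter fun i => ¬ P (b, N * (i + 1))).card ≤ badN P b Y := by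
    have e1 : badN P b Y = ((Finset.Icc 1 Y).filter fun z => ¬ P (b, z)).card := by
      unfold badN
      rw [← Set.ncard_coe_finset]
      congr 1
      ext z
      simp only [Set.mem_ofPred_eq, Finset.coe_filter, Finset.mem_Icc]
    rw [e1]
    refine Finset.card_le_card_of_injOn (fun i => N * (i + 1)) ?_ ?_
    · intro i hi
      simp only [Finset.coe_filter, Finset.mem_range, Set.mem_ofPred_eq] at hi
      simp only [Finset.coe_filter, Finset.mem_Icc, Set.mem_ofPred_eq]
      have h10 : N * (i + 1) ≤ N * a := Nat.mul_le_mul_left N hi.1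
      exact ⟨⟨Nat.mul_pos hN (Nat.succ_pos _), h10.trans ha3⟩, hi.2⟩
    · intro i _ j _ hij
      have := Nat.eq_of_mul_eq_mul_left hN hij
      omega
  have hsum := Finset.card_filter_add_card_filter_not (s := Finset.range a)
    (fun i => P (b, N * (i + 1)))
  rw [Finset.card_range] at hsum
  generalize ((Finset.range a).filter fun i => ¬ P (b, N * (i + 1))).card = W at hW hsum
  have key : 2 * W < a := by
    rcases Nat.eq_zero_or_pos W with h8 | h8
    · omega
    · have h9 : 4 * N * W < Y :=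
        lt_of_lt_of_le (Nat.mul_lt_mul_of_pos_right h6 h8)
          ((Nat.mul_le_mul_left _ hW).trans h7)
      have h10 : Y < 2 * (N * a) := by nlinarith
      have h13 : (2 * N) * (2 * W) < (2 * N) * a := by
        calc (2 * N) * (2 * W) = 4 * N * W := by ring
          _ < Y := h9
          _ < 2 * (N * a) := h10
          _ = (2 * N) * a := by ring
      exact Nat.lt_of_mul_lt_mul_left h13
  omega

end Pool.Agent.Q328.AC
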